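import Pool.Agent.V1153.UG.UnfC
import Pool.Agent.V1153.UG.Spc

/-!
Maps from the affine line without some points given by sums of few products of powers with arbitrary
exponents.
-/

set_option autoImplicit false

namespace Pool.Agent.V1153.LV

open Filter Topology Set Metric MvPolynomial
open Pool.Agent.V1153.UG

variable {n d : ℕ}

/-- the affine line without the points `a_1, ..., a_d` -/
def offP (a : Fin d → ℂ) : Set ℂ := {z | ∀ l, z ≠ a l}

/-- the product of the powers of the functions `z - a_l` with the exponents `k_l` -/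
noncomputable def mon (a : Fin d → ℂ) (k : Fin d → ℤ) (z : ℂ) : ℂ := ∏ l, (z - a l) ^ k l

theorem offP_open (a : Fin d → ℂ) : IsOpen (offP a) := by
  have h1 : offP a = ⋂ l, {z | z ≠ a l} := by
    ext z
    simp [offP]
  rw [h1]
  exact isOpen_iInter_of_finite fun l => isOpen_ne

theorem mon_ne {a : Fin d → ℂ} {k : Fin d → ℤ} {z : ℂ} (hz : z ∈ offP a) : mon a k z ≠ 0 :=
  Finset.prod_ne_zero_iff.2 fun l _ => zpow_ne_zero _ (sub_ne_zero.2 (hz l))

/-- the polynomial with the zeros `a_l` -/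
noncomputable def qp (a : Fin d → ℂ) : Polynomial ℂ := ∏ l, (Polynomial.X - Polynomial.C (a l))

theorem qp_eval (a : Fin d → ℂ) (z : ℂ) : (qp a).eval z = ∏ l, (z - a l) := by
  unfold qp
  rw [Polynomial.eval_prod]
  simp

theorem qp_ne {a : Fin d → ℂ} {z : ℂ} (hz : z ∈ offP a) : (qp a).eval z ≠ 0 := by
  rw [qp_eval]
  exact Finset.prod_ne_zero_iff.2 fun l _ => sub_ne_zero.2 (hz l)

theorem qp_ne0 (a : Fin d → ℂ) : qp a ≠ 0 :=
  Finset.prod_ne_zero_iff.2 fun _ _ => Polynomial.X_sub_C_ne_zero _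

theorem qp_deg (a : Fin d → ℂ) : (qp a).natDegree ≤ d := by
  unfold qp
  refine (Polynomial.natDegree_prod_le _ _).trans ?_
  simp

/-- the numerator of the logarithmic derivative -/
noncomputable def ld (a : Fin d → ℂ) (k : Fin d → ℤ) : Polynomial ℂ :=
  ∑ l, Polynomial.C (k l : ℂ) * ∏ i ∈ Finset.univ.erase l, (Polynomial.X - Polynomial.C (a i))

theorem ld_deg (a : Fin d → ℂ) (k : Fin d → ℤ) : (ld a k).natDegree ≤ d := by
  refine Polynomial.natDegree_sum_le_of_forall_le _ _ fun l _ => ?_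
  refine (Polynomial.natDegree_C_mul_le _ _).trans ?_
  refine (Polynomial.natDegree_prod_le _ _).trans ?_
  refine (Finset.sum_le_card_nsmul _ _ 1 fun i _ => le_of_eq (Polynomial.natDegree_X_sub_C _)).trans ?_
  rw [smul_eq_mul, mul_one]
  refine (Finset.card_le_univ _).trans ?_
  rw [Fintype.card_fin]

theorem ld_eval (a : Fin d → ℂ) (k : Fin d → ℤ) {z : ℂ} (hz : z ∈ offP a) :
    (ld a k).eval z * ((qp a).eval z)⁻¹ = ∑ l, (k l : ℂ) / (z - a l) := by
  unfold ld
  rw [Polynomial.eval_finsetSum, Finset.sum_mul]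
  refine Finset.sum_congr rfl fun l _ => ?_
  have h0 : z - a l ≠ 0 := sub_ne_zero.2 (hz l)
  have h1 : (qp a).eval z = (z - a l) * ∏ i ∈ Finset.univ.erase l, (z - a i) := by
    rw [qp_eval, Finset.mul_prod_erase Finset.univ (fun i => z - a i) (Finset.mem_univ l)]
  have h2 : ∏ i ∈ Finset.univ.erase l, (z - a i) ≠ 0 :=
    Finset.prod_ne_zero_iff.2 fun i _ => sub_ne_zero.2 (hz i)
  rw [Polynomial.eval_mul, Polynomial.eval_C, Polynomial.eval_prod, h1]
  simp only [Polynomial.eval_sub, Polynomial.eval_X, Polynomial.eval_C]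
  field_simp

theorem mon_deriv (a : Fin d → ℂ) (k : Fin d → ℤ) {z : ℂ} (hz : z ∈ offP a) :
    HasDerivAt (mon a k) ((∑ l, (k l : ℂ) / (z - a l)) * mon a k z) z := by
  classical
  have key : ∀ s : Finset (Fin d), HasDerivAt (fun z => ∏ l ∈ s, (z - a l) ^ k l)
      ((∑ l ∈ s, (k l : ℂ) / (z - a l)) * ∏ l ∈ s, (z - a l) ^ k l) z := by
    intro s
    induction s using Finset.induction_on with
    | empty =>
      simp only [Finset.prod_empty, Finset.sum_empty, zero_mul]
      exact hasDerivAt_const z 1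
    | insert b s hb ih =>
      have h0 : z - a b ≠ 0 := sub_ne_zero.2 (hz b)
      have h1 : HasDerivAt (fun z : ℂ => (z - a b) ^ k b)
          ((k b : ℂ) * (z - a b) ^ (k b - 1)) z := by
        have h2 := (hasDerivAt_zpow (k b) (z - a b) (Or.inl h0)).comp z
          ((hasDerivAt_id z).sub_const (a b))
        exact h2.congr_deriv (mul_one _)
      have h2 := h1.mul ih
      simp only [Finset.prod_insert hb, Finset.sum_insert hb]
      refine h2.congr_deriv ?_
      rw [zpow_sub_one₀ h0]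
      field_simp
  exact key Finset.univ

/-- a polynomial without zeros outside of the points `a_l` -/
theorem unit_form {a : Fin d → ℂ} (R : Polynomial ℂ) (hR : ∀ z ∈ offP a, R.eval z ≠ 0)
    (hne : R ≠ 0) : ∃ (c : ℂ) (k : Fin d → ℤ), c ≠ 0 ∧ ∀ z ∈ offP a, R.eval z = c * mon a k z := by
  classical
  induction hd : R.natDegree using Nat.strong_induction_on generalizing R with
  | _ m ih =>
    rcases Nat.eq_zero_or_pos m with h0 | h0
    · rw [h0] at hd
      rw [Polynomial.eq_C_of_natDegree_eq_zero hd] at hne ⊢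
      refine ⟨R.coeff 0, fun _ => 0, fun h => hne (by rw [h, Polynomial.C_0]), fun z _ => ?_⟩
      unfold mon
      simp
    · obtain ⟨ρ, hρ⟩ := Complex.exists_root (f := R) (by
        rw [← Polynomial.natDegree_pos_iff_degree_pos, hd]
        exact h0)
      have h1 : ∃ l, ρ = a l := by
        by_contra hcon
        push Not at hcon
        exact hR ρ hcon hρ
      obtain ⟨l, rfl⟩ := h1
      obtain ⟨R', hR'⟩ := Polynomial.dvd_iff_isRoot.2 hρ
      have hR0 : R' ≠ 0 := by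
        rintro rfl
        rw [mul_zero] at hR'
        exact hne hR'
      have hdeg : R'.natDegree < m := by
        rw [hR', Polynomial.natDegree_mul (Polynomial.X_sub_C_ne_zero _) hR0,
          Polynomial.natDegree_X_sub_C] at hd
        omega
      obtain ⟨c, k, hc, hk⟩ := ih R'.natDegree hdeg R' (fun z hz h2 => hR z hz (by
        rw [hR', Polynomial.eval_mul, h2, mul_zero])) hR0 rfl
      refine ⟨c, Function.update k l (k l + 1), hc, fun z hz => ?_⟩
      rw [hR', Polynomial.eval_mul, hk z hz]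
      unfold mon
      rw [← Finset.mul_prod_erase Finset.univ _ (Finset.mem_univ l),
        ← Finset.mul_prod_erase Finset.univ (fun i => (z - a i) ^ Function.update k l (k l + 1) i)
          (Finset.mem_univ l), Function.update_self, zpow_add_one₀ (sub_ne_zero.2 (hz l))]
      have h3 : ∏ i ∈ Finset.univ.erase l, (z - a i) ^ Function.update k l (k l + 1) i =
          ∏ i ∈ Finset.univ.erase l, (z - a i) ^ k i := Finset.prod_congr rfl fun i hi => by
        rw [Function.update_of_ne (Finset.ne_of_mem_erase hi)]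
      rw [h3]
      simp only [Polynomial.eval_sub, Polynomial.eval_X, Polynomial.eval_C]
      ring

/-- `h` is the vector of homogeneous coordinates of a nonconstant map from the affine line without the
points `a_1, ..., a_d` to the complement of `Q = 0` in the projective variety with the ideal `I`, and
each coordinate is a sum of `r` products of a polynomial of degree at most `e` and of powers of the
functions `z - a_l` with arbitrary integer exponents. -/
structure Sparse (I : Ideal (MvPolynomial (Fin (n + 1)) ℂ)) (Q : MvPolynomial (Fin (n + 1)) ℂ)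
    (r e : ℕ) (a : Fin d → ℂ) (h : ℂ → Fin (n + 1) → ℂ) : Prop where
  form : ∀ j, ∃ (p : Fin r → Polynomial ℂ) (k : Fin r → Fin d → ℤ),
    (∀ i, (p i).natDegree ≤ e) ∧ ∀ z ∈ offP a, h z j = ∑ i, (p i).eval z * mon a (k i) z
  mem : ∀ z ∈ offP a, ∀ F ∈ I, (∃ m, F.IsHomogeneous m) → eval (h z) F = 0
  off : ∀ z ∈ offP a, eval (h z) Q ≠ 0
  nc : ∃ z ∈ offP a, ∃ w ∈ offP a, ∃ j k, h z j * h w k ≠ h z k * h w j

/-- The map from the set `S` with the homogeneous coordinates `h` extends to a morphism of degree at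
most `N` from the projective line: it is given by polynomials of degree at most `N` without common
zeros. -/
def MapDegLe (N : ℕ) (S : Set ℂ) (h : ℂ → Fin (n + 1) → ℂ) : Prop :=
  ∃ P : Fin (n + 1) → Polynomial ℂ, (∀ j, (P j).natDegree ≤ N) ∧ (∀ z, ∃ j, (P j).eval z ≠ 0) ∧
    ∀ z ∈ S, ∀ j k, h z j * (P k).eval z = h z k * (P j).eval z

/-- a common denominator -/
theorem mon_poly (a : Fin d → ℂ) (k : Fin d → ℤ) (M : ℕ) (hM : ∀ l, -(M : ℤ) ≤ k l) :
    ∃ F : Polynomial ℂ, ∀ z ∈ offP a, F.eval z = (qp a).eval z ^ M * mon a k z := by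
  refine ⟨∏ l, (Polynomial.X - Polynomial.C (a l)) ^ (k l + M).toNat, fun z hz => ?_⟩
  rw [qp_eval, ← Finset.prod_pow, Polynomial.eval_prod]
  unfold mon
  rw [← Finset.prod_mul_distrib]
  refine Finset.prod_congr rfl fun l _ => ?_
  have h0 : z - a l ≠ 0 := sub_ne_zero.2 (hz l)
  have h1 : (((k l + M).toNat : ℕ) : ℤ) = k l + M := Int.toNat_of_nonneg (by
    have := hM l
    omega)
  rw [Polynomial.eval_pow, Polynomial.eval_sub, Polynomial.eval_X, Polynomial.eval_C,
    ← zpow_natCast, h1, zpow_add₀ h0, zpow_natCast, mul_comm]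

theorem Sparse.poly {I : Ideal (MvPolynomial (Fin (n + 1)) ℂ)} {Q : MvPolynomial (Fin (n + 1)) ℂ}
    {r e : ℕ} {a : Fin d → ℂ} {h : ℂ → Fin (n + 1) → ℂ} (hs : Sparse I Q r e a h) :
    ∃ (M : ℕ) (F : Fin (n + 1) → Polynomial ℂ), ∀ z ∈ offP a, ∀ j,
      (F j).eval z = (qp a).eval z ^ M * h z j := by
  classical
  choose p k hp hk using hs.form
  let M : ℕ := Finset.univ.sup fun t : (Fin (n + 1) × Fin r) × Fin d =>
    (k t.1.1 t.1.2 t.2).natAbs
  have hM : ∀ j i l, -(M : ℤ) ≤ k j i l := by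
    intro j i l
    have h1 : (k j i l).natAbs ≤ M := Finset.le_sup (f := fun t : (Fin (n + 1) × Fin r) × Fin d =>
      (k t.1.1 t.1.2 t.2).natAbs) (Finset.mem_univ ((j, i), l))
    omega
  choose G hG using fun j i => mon_poly a (k j i) M (hM j i)
  refine ⟨M, fun j => ∑ i, p j i * G j i, fun z hz j => ?_⟩
  rw [hk j z hz, Polynomial.eval_finsetSum, Finset.mul_sum]
  refine Finset.sum_congr rfl fun i _ => ?_
  rw [Polynomial.eval_mul, hG j i z hz]
  ring

/-- the degree of a map with algebraic quotients of coordinates -/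
theorem deg_of_pairs {P' : Fin (n + 1) → Polynomial ℂ} (hne : ∀ z, ∃ j, (P' j).eval z ≠ 0) {N : ℕ}
    {V : Set ℂ} (hV : IsOpen V) (hVne : V.Nonempty) (h : ∀ j l, ∃ m ≤ N, AlgPair m V
      (fun z => (P' j).eval z) fun z => (P' l).eval z) :
    ∃ P : Fin (n + 1) → Polynomial ℂ, (∀ j, (P j).natDegree ≤ (n + 2) * N) ∧
      ∀ z, ∃ c : ℂ, c ≠ 0 ∧ ∀ j, (P' j).eval z = c * (P j).eval z := by
  obtain ⟨ζ, hζ⟩ := hVne
  obtain ⟨l, hl⟩ := hne ζ
  have hd : ∀ j, Differentiable ℂ fun z => (P' j).eval z := fun j => (P' j).differentiable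
  refine poly_vec (f := fun z j => (P' j).eval z) hd (fun z h0 => ?_) l ⟨ζ, hl⟩ (H := N)
    fun j => ?_
  · obtain ⟨j, hj⟩ := hne z
    exact hj (congrFun h0 j)
  · obtain ⟨m, hm, c, hc, hcz⟩ := h j l
    obtain ⟨p, hp1, hp2, hp3⟩ := pair_poly c hc
    refine ratio_rational (hd j) (hd l) ⟨ζ, hl⟩ p hp1 (fun β => (hp2 β).trans hm) ?_
    intro z
    rw [← hp3]
    let F : ℂ → ℂ := fun z => ∑ k, c k * mons m z ((P' j).eval z) ((P' l).eval z) k
    have hF : Differentiable ℂ F := by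
      refine Differentiable.fun_sum fun k _ => ?_
      refine (differentiable_const _).mul ?_
      exact ((differentiable_id.pow _).mul ((hd j).pow _)).mul ((hd l).pow _)
    have h1 : AnalyticOnNhd ℂ F univ := fun x _ => hF.analyticAt x
    exact h1.eqOn_zero_of_preconnected_of_eventuallyEq_zero isPreconnected_univ
      (mem_univ ζ) (by filter_upwards [hV.mem_nhds hζ] with w hw using hcz w hw) (mem_univ z)

/-- **The system of differential equations of a sparse map.** -/
theorem Sparse.arc {I : Ideal (MvPolynomial (Fin (n + 1)) ℂ)} {Q : MvPolynomial (Fin (n + 1)) ℂ}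
    {q0 : ℕ} (hQ : Q.IsHomogeneous q0)
    {r e : ℕ} {a : Fin d → ℂ} {h : ℂ → Fin (n + 1) → ℂ} (hs : Sparse I Q r e a h)
    {g : Polynomial ℂ} (hg : g ≠ 0) :
    ∃ V : Set ℂ, V ⊆ offP a ∧ V.Nonempty ∧ (∀ z ∈ V, g.eval z ≠ 0) ∧
      Arc I Q 1 ((n + 1) * r + 1) (e + d + 1) d V h := by
  classical
  obtain ⟨M, F, hF⟩ := hs.poly
  have hq0 : ∀ z ∈ offP a, (qp a).eval z ^ M ≠ 0 := fun z hz => pow_ne_zero _ (qp_ne hz)
  -- the inverse of `Q(h)`
  have hQF : ∀ z ∈ offP a, (aeval F Q : Polynomial ℂ).eval z =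
      ((qp a).eval z ^ M) ^ q0 * eval (h z) Q := by
    intro z hz
    rw [eval_aeval, ← eval_homog hQ]
    congr 1
    congr 1
    funext j
    exact hF z hz j
  obtain ⟨z1, hz1, z2, hz2, j1, j2, hj⟩ := hs.nc
  have hQF0 : (aeval F Q : Polynomial ℂ) ≠ 0 := by
    intro h0
    have h1 := hQF z1 hz1
    rw [h0, Polynomial.eval_zero] at h1
    exact mul_ne_zero (pow_ne_zero _ (hq0 z1 hz1)) (hs.off z1 hz1) h1.symm
  obtain ⟨cQ, kQ, hcQ, hkQ⟩ := unit_form (a := a) (aeval F Q : Polynomial ℂ) (fun z hz => by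
    rw [hQF z hz]
    exact mul_ne_zero (pow_ne_zero _ (hq0 z hz)) (hs.off z hz)) hQF0
  -- the exponent of the inverse of `Q(h)`
  have hinv : ∀ z ∈ offP a, cQ⁻¹ * mon a (fun l => (M * q0 : ℕ) - kQ l) z * eval (h z) Q = 1 := by
    intro z hz
    have h1 := hQF z hz
    rw [hkQ z hz] at h1
    have h2 : mon a (fun l => ((M * q0 : ℕ) : ℤ) - kQ l) z =
        ((qp a).eval z ^ M) ^ q0 * (mon a kQ z)⁻¹ := by
      rw [qp_eval, ← pow_mul, ← Finset.prod_pow]
      unfold mon
      rw [← Finset.prod_inv_distrib, ← Finset.prod_mul_distrib]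
      refine Finset.prod_congr rfl fun l _ => ?_
      rw [zpow_sub₀ (sub_ne_zero.2 (hz l)), zpow_natCast, div_eq_mul_inv]
    have h3 : mon a kQ z ≠ 0 := mon_ne hz
    rw [h2]
    have h4 : cQ⁻¹ * (((qp a).eval z ^ M) ^ q0 * (mon a kQ z)⁻¹) * eval (h z) Q =
        (cQ⁻¹ * (mon a kQ z)⁻¹) * (((qp a).eval z ^ M) ^ q0 * eval (h z) Q) := by ring
    rw [h4, ← h1]
    field_simp
  -- a ball
  have hex : ∃ z, z ∈ offP a ∧ g.eval z ≠ 0 ∧ h z ≠ 0 := by
    have h1 : h z1 ≠ 0 := by
      intro h0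
      apply hj
      rw [h0]
      simp
    obtain ⟨j, hj1⟩ := Function.ne_iff.1 h1
    have hFj : F j ≠ 0 := by
      intro h0
      have h2 := hF z1 hz1 j
      rw [h0, Polynomial.eval_zero] at h2
      exact mul_ne_zero (hq0 z1 hz1) hj1 h2.symm
    obtain ⟨z, hz⟩ := poly_ne (mul_ne_zero (mul_ne_zero (qp_ne0 a) hg) hFj)
    rw [Polynomial.eval_mul, Polynomial.eval_mul] at hz
    have hz0 : z ∈ offP a := by
      intro l hl
      apply hz
      rw [qp_eval, Finset.prod_eq_zero (Finset.mem_univ l) (sub_eq_zero.2 hl)]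
      ring
    refine ⟨z, hz0, fun h2 => hz (by rw [h2]; ring), fun h2 => hz ?_⟩
    rw [hF z hz0 j, h2]
    simp
  obtain ⟨ζ, hζ, hgζ, hhζ⟩ := hex
  have hopen : IsOpen (offP a ∩ {z | g.eval z ≠ 0}) :=
    (offP_open a).inter (isOpen_ne.preimage g.continuous)
  obtain ⟨ε, hε, hb⟩ := Metric.isOpen_iff.1 hopen ζ ⟨hζ, hgζ⟩
  choose p k hp hk using hs.form
  let φ : Fin ((n + 1) * r + 1) ≃ Option (Fin (n + 1) × Fin r) :=
    (Fintype.equivFinOfCardEq (by
      rw [Fintype.card_option, Fintype.card_prod, Fintype.card_fin, Fintype.card_fin])).symm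
  let K : Option (Fin (n + 1) × Fin r) → Fin d → ℤ := fun o =>
    match o with
    | none => fun l => ((M * q0 : ℕ) : ℤ) - kQ l
    | some t => k t.1 t.2
  let y : Fin 1 → Fin ((n + 1) * r + 1) → ℂ → ℂ := fun _ b => mon a (K (φ b))
  refine ⟨ball ζ ε, fun z hz => (hb hz).1, ⟨ζ, mem_ball_self hε⟩, fun z hz => (hb hz).2,
    ⟨isOpen_ball, (convex_ball ζ ε).isPreconnected, ⟨ζ, mem_ball_self hε, hhζ⟩,
      ⟨qp a, y, ⟨qp_deg a, fun z hz => qp_ne (hb hz).1, fun l b => ?_⟩, fun j => ?_, ?_⟩,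
      fun z hz => hs.mem z (hb hz).1⟩⟩
  · obtain ⟨c, hc⟩ := pev_poly_mul (e := e + d + 1) (ld a (K (φ b)))
      ((ld_deg _ _).trans (by omega)) (by omega) (i := (Sum.inl true : Vx 1 ((n + 1) * r + 1)))
      (j := Sum.inl false) (by simp)
    refine ⟨fun b' => if b' = b then c else fun _ => 0, fun z hz => ?_⟩
    have h1 := mon_deriv a (K (φ b)) (hb hz).1
    refine h1.congr_deriv ?_
    symm
    rw [Finset.sum_eq_single b]
    · change pev (if b = b then c else fun _ => 0) _ * _ = _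
      rw [if_pos rfl, hc, ← ld_eval a _ (hb hz).1]
      rfl
    · intro b' _ hb'
      change pev (if b' = b then c else fun _ => 0) _ * _ = _
      rw [if_neg hb']
      unfold pev
      simp
    · intro h2
      exact absurd (Finset.mem_univ _) h2
  · obtain ⟨c, hc⟩ := pev_sum (e := e + d + 1) (L := ℂ) (ι := Vx 1 ((n + 1) * r + 1))
      Finset.univ (fun (i : Fin r) v => (p j i).eval (v (Sum.inl true)) *
        v (Sum.inr (0, φ.symm (some (j, i))))) fun i _ =>
        pev_poly_mul (p j i) ((hp j i).trans (by omega)) (by omega) (by simp)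
    refine ⟨c, fun z hz => ?_⟩
    rw [hc, hk j z (hb hz).1]
    refine Finset.sum_congr rfl fun i _ => ?_
    simp only [vec, y, Equiv.apply_symm_apply, K]
  · obtain ⟨c, hc⟩ := pev_pow (e := e + d + 1) (L := ℂ) cQ⁻¹
      (Sum.inr (0, φ.symm none) : Vx 1 ((n + 1) * r + 1)) 1 (by omega)
    refine ⟨c, fun z hz => ?_⟩
    rw [hc, pow_one]
    simp only [vec, y, Equiv.apply_symm_apply, K]
    exact hinv z (hb hz).1

/-- the bound for the degree -/
theorem Sparse.deg {I : Ideal (MvPolynomial (Fin (n + 1)) ℂ)} {Q G : MvPolynomial (Fin (n + 1)) ℂ}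
    {q0 γ : ℕ} (hQh : Q.IsHomogeneous q0) (hGh : G.IsHomogeneous γ) {r e N0 : ℕ}
    (H : ∀ (V : Set ℂ) (h : ℂ → Fin (n + 1) → ℂ), Arc I Q 1 ((n + 1) * r + 1) (e + d + 1) d V h →
      (∀ z ∈ V, eval (h z) G = 0) ∨
        ∀ j l, ∃ m ≤ N0, AlgPair m V (fun z => h z j) fun z => h z l)
    {a : Fin d → ℂ} {h : ℂ → Fin (n + 1) → ℂ} (hs : Sparse I Q r e a h) :
    (∀ z ∈ offP a, eval (h z) G = 0) ∨ MapDegLe ((n + 2) * N0) (offP a) h := by
  obtain ⟨M, F, hF⟩ := hs.poly
  obtain ⟨z1, hz1, z2, hz2, j1, j2, hj⟩ := hs.nc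
  have hq0 : ∀ z ∈ offP a, (qp a).eval z ^ M ≠ 0 := fun z hz => pow_ne_zero _ (qp_ne hz)
  obtain ⟨g, P', hg, hFP, hne⟩ := primitive F (by
    by_contra hcon
    push Not at hcon
    have h1 : ∀ j, h z1 j = 0 := by
      intro j
      have h2 := hF z1 hz1 j
      rw [hcon j, Polynomial.eval_zero] at h2
      exact (mul_eq_zero.1 h2.symm).resolve_left (hq0 z1 hz1)
    apply hj
    rw [h1, h1, zero_mul, zero_mul])
  obtain ⟨V, hVa, hVne, hVg, hA⟩ := hs.arc hQh hg
  rcases H V h hA with h1 | h1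
  · left
    intro z hz
    -- `G(F) = 0`
    have h2 : ∀ z ∈ offP a, (aeval F G : Polynomial ℂ).eval z =
        ((qp a).eval z ^ M) ^ γ * eval (h z) G := by
      intro z hz
      rw [eval_aeval, ← eval_homog hGh]
      congr 1
      congr 1
      funext j
      exact hF z hz j
    have h3 : (aeval F G : Polynomial ℂ) = 0 := by
      refine Polynomial.eq_zero_of_infinite_isRoot _ ?_
      obtain ⟨w, hw⟩ := hVne
      refine (infinite_of_mem_nhds w (hA.opn.mem_nhds hw)).mono fun x hx => ?_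
      change (aeval F G : Polynomial ℂ).eval x = 0
      rw [h2 x (hVa hx), h1 x hx, mul_zero]
    have h4 := h2 z hz
    rw [h3, Polynomial.eval_zero] at h4
    exact (mul_eq_zero.1 h4.symm).resolve_left (pow_ne_zero _ (hq0 z hz))
  · right
    have h2 : ∀ j l, ∃ m ≤ N0, AlgPair m V (fun z => (P' j).eval z) fun z => (P' l).eval z := by
      intro j l
      obtain ⟨m, hm, h3⟩ := h1 j l
      refine ⟨m, hm, pair_scale (f := fun z j => (P' j).eval z)
        (g := fun z => g.eval z / (qp a).eval z ^ M) (fun z hz =>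
          div_ne_zero (hVg z hz) (hq0 z (hVa hz))) ?_⟩
      obtain ⟨c, hc, hcz⟩ := h3
      refine ⟨c, hc, fun z hz => ?_⟩
      have h4 : ∀ j, g.eval z / (qp a).eval z ^ M * (P' j).eval z = h z j := by
        intro j
        have h5 := hF z (hVa hz) j
        rw [hFP j, Polynomial.eval_mul] at h5
        rw [div_mul_eq_mul_div, h5, mul_div_cancel_left₀ _ (hq0 z (hVa hz))]
      change ∑ k, c k * mons m z (g.eval z / (qp a).eval z ^ M * (P' j).eval z)
        (g.eval z / (qp a).eval z ^ M * (P' l).eval z) k = 0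
      rw [h4, h4]
      exact hcz z hz
    obtain ⟨P, hP1, hP2⟩ := deg_of_pairs hne hA.opn hVne h2
    refine ⟨P, hP1, fun z => ?_, fun z hz j k => ?_⟩
    · obtain ⟨c, hc, h3⟩ := hP2 z
      obtain ⟨j, hj⟩ := hne z
      refine ⟨j, fun h4 => hj ?_⟩
      rw [h3, h4, mul_zero]
    · obtain ⟨c, hc, h3⟩ := hP2 z
      have h4 : ∀ j, (qp a).eval z ^ M * h z j = g.eval z * (c * (P j).eval z) := by
        intro j
        rw [← hF z hz j, hFP j, Polynomial.eval_mul, h3]
      apply mul_left_cancel₀ (hq0 z hz)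
      rw [← mul_assoc, ← mul_assoc, h4, h4]
      ring

/-- **A uniform bound for the degree.** -/
theorem sparse_deg (n D r e d : ℕ) : ∃ N : ℕ, ∀ (E : Set (MvPolynomial (Fin (n + 1)) ℂ))
    (Q G : MvPolynomial (Fin (n + 1)) ℂ), (∀ F ∈ E, ∃ a ≤ D, F.IsHomogeneous a) →
      (∃ a ≤ D, Q.IsHomogeneous a) → (∃ a ≤ D, G.IsHomogeneous a) →
      VanGm (Ideal.span E) Q N G → ∀ (a : Fin d → ℂ) (h : ℂ → Fin (n + 1) → ℂ),
        Sparse (Ideal.span E) Q r e a h → (∀ z ∈ offP a, eval (h z) G = 0) ∨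
          MapDegLe N (offP a) h := by
  obtain ⟨N0, hN0⟩ := arc_family n D 1 ((n + 1) * r + 1) (e + d + 1) d
  have hle : N0 ≤ (n + 2) * N0 := Nat.le_mul_of_pos_left _ (by omega)
  refine ⟨(n + 2) * N0, fun E Q G hE hQ hG hV a h hs => ?_⟩
  obtain ⟨q, -, hQh⟩ := id hQ
  obtain ⟨γ, -, hGh⟩ := id hG
  exact hs.deg hQh hGh (hN0 E Q G hE hQ hG (hV.mono (fun _ h _ => h) hle))

/-! ### Maps of bounded complexity -/

/-- `P` is the vector of homogeneous coordinates, without common zeros, of a nonconstant map from the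
affine line without the points `a_1, ..., a_d` to the complement of `Q = 0` in the projective variety
with the ideal `I`. -/
structure LineMap (I : Ideal (MvPolynomial (Fin (n + 1)) ℂ)) (Q : MvPolynomial (Fin (n + 1)) ℂ)
    (a : Fin d → ℂ) (P : Fin (n + 1) → Polynomial ℂ) : Prop where
  prim : ∀ z, ∃ j, (P j).eval z ≠ 0
  mem : ∀ F ∈ I, (∃ m, F.IsHomogeneous m) → aeval P F = 0
  off : ∀ z ∈ offP a, eval (fun j => (P j).eval z) Q ≠ 0
  nc : ∃ s t j k, (P j).eval s * (P k).eval t ≠ (P k).eval s * (P j).eval t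

/-- There are a proper closed subset `G = 0` and a number `N` such that all nonconstant sparse maps
with the parameters `(r, e)` from the affine line without `d` points to `X` which are not contained in
`G = 0` have degree at most `N`. -/
def SparseBound (I : Ideal (MvPolynomial (Fin (n + 1)) ℂ)) (Q : MvPolynomial (Fin (n + 1)) ℂ)
    (r e d : ℕ) : Prop :=
  ∃ (G : MvPolynomial (Fin (n + 1)) ℂ) (N : ℕ), (∃ m, G.IsHomogeneous m) ∧ G ∉ I ∧
    ∀ (a : Fin d → ℂ) (h : ℂ → Fin (n + 1) → ℂ), Sparse I Q r e a h →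
      (∀ z ∈ offP a, eval (h z) G = 0) ∨ MapDegLe N (offP a) h

/-- There are a proper closed subset `G = 0` and a number `N` such that all nonconstant maps of
complexity at most `(s, r, e, d)` from the affine line without any finite number of points to `X`
which are not contained in `G = 0` have degree at most `N`. -/
def LineBound (I : Ideal (MvPolynomial (Fin (n + 1)) ℂ)) (Q : MvPolynomial (Fin (n + 1)) ℂ)
    (s r e d : ℕ) : Prop :=
  ∃ (G : MvPolynomial (Fin (n + 1)) ℂ) (N : ℕ), (∃ m, G.IsHomogeneous m) ∧ G ∉ I ∧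
    ∀ (k : ℕ) (a : Fin k → ℂ) (P : Fin (n + 1) → Polynomial ℂ), LineMap I Q a P →
      Bdd (offP a) Q s r e d (fun z j => (P j).eval z) →
        (∀ z, eval (fun j => (P j).eval z) G = 0) ∨
          MapDegLe N (offP a) fun z j => (P j).eval z

theorem line_deg {I : Ideal (MvPolynomial (Fin (n + 1)) ℂ)} (hI : I.IsPrime)
    {Q : MvPolynomial (Fin (n + 1)) ℂ} {q0 : ℕ} (hQ : Q.IsHomogeneous q0) (ht : GmThin I Q)
    (s r e d : ℕ) : LineBound I Q s r e d := by
  obtain ⟨G, m0, ⟨γ, hG⟩, hGI, hall⟩ := arc_thin hI hQ ht s r e d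
  refine ⟨G, (n + 2) * m0, ⟨γ, hG⟩, hGI, fun k a P hP hb => ?_⟩
  obtain ⟨U, q, y, g, hU, ⟨z0, hz0⟩, hUS, hsys, hg, hcx, hcu⟩ := hb
  have hne : ∀ z ∈ offP a, (fun j => (P j).eval z) ≠ 0 := by
    intro z _ h0
    obtain ⟨j, hj⟩ := hP.prim z
    exact hj (congrFun h0 j)
  have hmem : ∀ z ∈ offP a, ∀ F ∈ I, (∃ m, F.IsHomogeneous m) →
      eval (fun j => (P j).eval z) F = 0 := by
    intro z _ F hF hFh
    rw [← eval_aeval, hP.mem F hF hFh, Polynomial.eval_zero]
  obtain ⟨ζ, hζ, ε, hε, hball, hA⟩ := Bdd.arc (offP_open a) hne hmem hU ⟨z0, hz0, hUS hz0⟩ hsys hg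
    hcx hcu
  rcases hall _ _ hA with h1 | h1
  · left
    have h3 : (aeval P G : Polynomial ℂ) = 0 := by
      refine Polynomial.eq_zero_of_infinite_isRoot _ ?_
      refine (infinite_of_mem_nhds ζ (ball_mem_nhds ζ hε)).mono fun x hx => ?_
      change (aeval P G : Polynomial ℂ).eval x = 0
      rw [eval_aeval]
      have h2 := h1 x hx
      rw [eval_homog hG] at h2
      exact (mul_eq_zero.1 h2).resolve_left (pow_ne_zero _ (hg x (hball hx).1))
    intro z
    rw [← eval_aeval, h3, Polynomial.eval_zero]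
  · right
    have h2 : ∀ j l, ∃ m ≤ m0, AlgPair m (ball ζ ε) (fun z => (P j).eval z)
        fun z => (P l).eval z := by
      intro j l
      obtain ⟨m, hm, h3⟩ := h1 j l
      exact ⟨m, hm, pair_scale (f := fun z j => (P j).eval z) (fun z hz => hg z (hball hz).1) h3⟩
    obtain ⟨P2, hP1, hP2⟩ := deg_of_pairs hP.prim isOpen_ball ⟨ζ, mem_ball_self hε⟩ h2
    refine ⟨P2, hP1, fun z => ?_, fun z _ j k => ?_⟩
    · obtain ⟨c, hc, h3⟩ := hP2 z
      obtain ⟨j, hj⟩ := hP.prim z
      refine ⟨j, fun h4 => hj ?_⟩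
      rw [h3, h4, mul_zero]
    · obtain ⟨c, hc, h3⟩ := hP2 z
      change (P j).eval z * (P2 k).eval z = (P k).eval z * (P2 j).eval z
      rw [h3, h3]
      ring

/-- sparse maps have bounded complexity -/
theorem sparse_of_line {I : Ideal (MvPolynomial (Fin (n + 1)) ℂ)}
    {Q : MvPolynomial (Fin (n + 1)) ℂ} {q0 : ℕ} (hQ : Q.IsHomogeneous q0) {r e d : ℕ}
    (H : LineBound I Q 1 ((n + 1) * r + 1) (e + d + 1) d) : SparseBound I Q r e d := by
  obtain ⟨G, N, ⟨γ, hG⟩, hGI, hall⟩ := H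
  refine ⟨G, N, ⟨γ, hG⟩, hGI, fun a h hs => ?_⟩
  obtain ⟨M, F, hF⟩ := hs.poly
  obtain ⟨z1, hz1, z2, hz2, j1, j2, hj⟩ := hs.nc
  have hq0 : ∀ z ∈ offP a, (qp a).eval z ^ M ≠ 0 := fun z hz => pow_ne_zero _ (qp_ne hz)
  obtain ⟨g, P', hg, hFP, hne⟩ := primitive F (by
    by_contra hcon
    push Not at hcon
    have h1 : ∀ j, h z1 j = 0 := by
      intro j
      have h2 := hF z1 hz1 j
      rw [hcon j, Polynomial.eval_zero] at h2
      exact (mul_eq_zero.1 h2.symm).resolve_left (hq0 z1 hz1)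
    apply hj
    rw [h1, h1, zero_mul, zero_mul])
  obtain ⟨V, hVa, hVne, hVg, hA⟩ := hs.arc hQ hg
  have hev : ∀ (K : MvPolynomial (Fin (n + 1)) ℂ) (m : ℕ), K.IsHomogeneous m → ∀ z ∈ offP a,
      ((qp a).eval z ^ M) ^ m * eval (h z) K =
        (g.eval z) ^ m * eval (fun j => (P' j).eval z) K := by
    intro K m hK z hz
    rw [← eval_homog hK, ← eval_homog hK]
    congr 1
    congr 1
    funext j
    rw [← hF z hz j, hFP j, Polynomial.eval_mul]
  have hinf : ∀ p : Polynomial ℂ, (∀ z ∈ V, p.eval z = 0) → p = 0 := by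
    intro p hp
    refine Polynomial.eq_zero_of_infinite_isRoot _ ?_
    obtain ⟨w, hw⟩ := hVne
    exact (infinite_of_mem_nhds w (hA.opn.mem_nhds hw)).mono fun x hx => hp x hx
  have hmap : ∀ z ∈ offP a, ∀ j, (qp a).eval z ^ M * h z j = g.eval z * (P' j).eval z := by
    intro z hz j
    rw [← hF z hz j, hFP j, Polynomial.eval_mul]
  have hgz : ∀ z ∈ offP a, (∃ j, h z j ≠ 0) → g.eval z ≠ 0 := by
    rintro z hz ⟨j, hj⟩ h0
    have h1 := hmap z hz j
    rw [h0, zero_mul] at h1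
    exact mul_ne_zero (hq0 z hz) hj h1
  have hLM : LineMap I Q a P' := by
    refine ⟨hne, fun K hK ⟨m, hm⟩ => hinf _ fun z hz => ?_, fun z hz h0 => ?_, ?_⟩
    · have h1 := hev K m hm z (hVa hz)
      rw [hs.mem z (hVa hz) K hK ⟨m, hm⟩, mul_zero] at h1
      rw [eval_aeval]
      exact (mul_eq_zero.1 h1.symm).resolve_left (pow_ne_zero _ (hVg z hz))
    · have h1 := hev Q q0 hQ z hz
      rw [h0, mul_zero] at h1
      exact mul_ne_zero (pow_ne_zero _ (hq0 z hz)) (hs.off z hz) h1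
    · refine ⟨z1, z2, j1, j2, fun h0 => hj ?_⟩
      apply mul_left_cancel₀ (mul_ne_zero (hq0 z1 hz1) (hq0 z2 hz2))
      have e1 := hmap z1 hz1
      have e2 := hmap z2 hz2
      calc (qp a).eval z1 ^ M * (qp a).eval z2 ^ M * (h z1 j1 * h z2 j2) =
          ((qp a).eval z1 ^ M * h z1 j1) * ((qp a).eval z2 ^ M * h z2 j2) := by ring
        _ = ((qp a).eval z1 ^ M * h z1 j2) * ((qp a).eval z2 ^ M * h z2 j1) := by
            rw [e1, e1, e2, e2]
            linear_combination (g.eval z1 * g.eval z2) * h0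
        _ = _ := by ring
  have hg0 : ∀ z ∈ V, g.eval z / (qp a).eval z ^ M ≠ 0 := fun z hz =>
    div_ne_zero (hVg z hz) (hq0 z (hVa hz))
  have h4 : ∀ z ∈ V, ∀ j, g.eval z / (qp a).eval z ^ M * (P' j).eval z = h z j := by
    intro z hz j
    rw [div_mul_eq_mul_div, ← hmap z (hVa hz), mul_div_cancel_left₀ _ (hq0 z (hVa hz))]
  obtain ⟨q, y, hsys, hcx, hcu⟩ := hA.sys
  rcases hall d a P' hLM ⟨V, q, y, fun z => g.eval z / (qp a).eval z ^ M, hA.opn, hVne, hVa, hsys,
    hg0, fun j => by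
      obtain ⟨c, hc⟩ := hcx j
      exact ⟨c, fun z hz => by rw [h4 z hz j]; exact hc z hz⟩, by
      obtain ⟨c, hc⟩ := hcu
      refine ⟨c, fun z hz => ?_⟩
      have h5 : (fun j => g.eval z / (qp a).eval z ^ M * (P' j).eval z) = h z := funext (h4 z hz)
      rw [h5]
      exact hc z hz⟩ with h1 | h1
  · left
    intro z hz
    have h2 := hev G γ hG z hz
    rw [h1 z, mul_zero] at h2
    exact (mul_eq_zero.1 h2).resolve_left (pow_ne_zero _ (hq0 z hz))
  · right
    obtain ⟨P, hP1, hP2, hP3⟩ := h1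
    refine ⟨P, hP1, hP2, fun z hz j k => ?_⟩
    have h2 : (P' j).eval z * (P k).eval z = (P' k).eval z * (P j).eval z := hP3 z hz j k
    apply mul_left_cancel₀ (hq0 z hz)
    rw [← mul_assoc, ← mul_assoc, hmap z hz, hmap z hz]
    linear_combination (g.eval z) * h2

/-! ### The converse -/

/-- the powers of a curve of the punctured line -/
theorem ruled_sparse {I : Ideal (MvPolynomial (Fin (n + 1)) ℂ)}
    {Q : MvPolynomial (Fin (n + 1)) ℂ} {q0 : ℕ} (hI : I.IsPrime) (hQ : Q.IsHomogeneous q0)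
    (H : ∀ r, SparseBound I Q r 0 1) : ¬ GmRuled I Q := by
  classical
  intro hr
  have hnt : ¬ GmThin I Q := fun ht => (thin_iff hI hQ).1 ht hr
  unfold GmThin at hnt
  push Not at hnt
  obtain ⟨N0, hN0⟩ := hnt
  obtain ⟨G, N, ⟨γ, hG⟩, hGI, hall⟩ := H (N0 + 1)
  obtain ⟨P, hP, t0, ht0⟩ := hN0 G ⟨γ, hG⟩ hGI
  obtain ⟨g, P', hg, hPP, hpr⟩ := hP.prim hQ
  have hdeg : ∀ j, (P' j).natDegree ≤ N0 := by
    intro j
    by_cases h0 : P' j = 0
    · rw [h0, Polynomial.natDegree_zero]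
      exact Nat.zero_le _
    · have h1 := hP.deg j
      rw [hPP j, Polynomial.natDegree_mul hg h0] at h1
      omega
  -- a point with `G ≠ 0`
  obtain ⟨t1, ht1, hGt1⟩ : ∃ t1, t1 ≠ 0 ∧ eval (fun j => (P' j).eval t1) G ≠ 0 := by
    have h1 : (aeval P' G : Polynomial ℂ) ≠ 0 := by
      intro h0
      apply ht0
      have h2 : (fun j => (P j).eval t0) = fun j => g.eval t0 * (P' j).eval t0 := by
        funext j
        rw [hPP j, Polynomial.eval_mul]
      rw [h2, eval_homog hG, ← eval_aeval (P := P'), h0, Polynomial.eval_zero, mul_zero]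
    obtain ⟨t1, ht1⟩ := poly_ne (mul_ne_zero Polynomial.X_ne_zero h1)
    rw [Polynomial.eval_mul, Polynomial.eval_X, eval_aeval] at ht1
    exact ⟨t1, left_ne_zero_of_mul ht1, right_ne_zero_of_mul ht1⟩
  obtain ⟨s, t, j, l, hs, ht, hst⟩ := hpr.nc
  set k : ℕ := N + 1 with hk
  have hkp : 0 < k := Nat.succ_pos N
  have hroot : ∀ x : ℂ, x ≠ 0 → ∃ z : ℂ, z ≠ 0 ∧ z ^ k = x := by
    intro x hx
    obtain ⟨z, hz⟩ := IsAlgClosed.exists_pow_nat_eq x hkp
    refine ⟨z, ?_, hz⟩
    rintro rfl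
    rw [zero_pow hkp.ne'] at hz
    exact hx hz.symm
  let a : Fin 1 → ℂ := fun _ => 0
  have hoff : ∀ z : ℂ, z ∈ offP a ↔ z ≠ 0 := fun z => ⟨fun h => h 0, fun h _ => h⟩
  obtain ⟨zs, hzs, hzs'⟩ := hroot s hs
  obtain ⟨zt, hzt, hzt'⟩ := hroot t ht
  obtain ⟨z1, hz1, hz1'⟩ := hroot t1 ht1
  have hS : Sparse I Q (N0 + 1) 0 a fun z j => (P' j).eval (z ^ k) := by
    refine ⟨fun j => ⟨fun i => Polynomial.C ((P' j).coeff i), fun i _ => ((k * (i : ℕ) : ℕ) : ℤ),
      fun i => by rw [Polynomial.natDegree_C], fun z _ => ?_⟩, fun z _ F hF hFh => ?_,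
      fun z hz => ?_, ?_⟩
    · rw [Polynomial.eval_eq_sum_range' (Nat.lt_succ_of_le (hdeg j)), Finset.sum_range]
      refine Finset.sum_congr rfl fun i _ => ?_
      unfold mon
      rw [Polynomial.eval_C, Finset.univ_unique, Finset.prod_singleton, zpow_natCast, pow_mul]
      simp only [a, sub_zero]
    · exact hpr.mem _ F hF hFh
    · exact hpr.off _ (pow_ne_zero _ ((hoff z).1 hz))
    · refine ⟨zs, (hoff _).2 hzs, zt, (hoff _).2 hzt, j, l, ?_⟩
      rw [hzs', hzt']
      exact hst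
  rcases hall a _ hS with h1 | ⟨R, hR1, hR2, hR3'⟩
  · have h2 := h1 z1 ((hoff _).2 hz1)
    rw [hz1'] at h2
    exact hGt1 h2
  · -- the degree is too large
    have hR3 : ∀ z ∈ offP a, ∀ j l, (P' j).eval (z ^ k) * (R l).eval z =
        (P' l).eval (z ^ k) * (R j).eval z := hR3'
    have hζ := Complex.isPrimitiveRoot_exp k hkp.ne'
    set ζ := Complex.exp (2 * Real.pi * Complex.I / k) with hζd
    let Φ : Polynomial ℂ := R j * Polynomial.C ((P' l).eval t) - R l * Polynomial.C ((P' j).eval t)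
    have hΦd : Φ.natDegree ≤ N := by
      refine (Polynomial.natDegree_sub_le _ _).trans (max_le ?_ ?_)
      · exact (Polynomial.natDegree_mul_C_le _ _).trans (hR1 j)
      · exact (Polynomial.natDegree_mul_C_le _ _).trans (hR1 l)
    have hΦ : Φ = 0 := by
      refine Polynomial.eq_zero_of_natDegree_lt_card_of_eval_eq_zero Φ
        (f := fun i : Fin k => zt * ζ ^ (i : ℕ)) (fun i i' hii => ?_) (fun i => ?_) (by
          rw [Fintype.card_fin]
          omega)
      · have h2 : ζ ^ (i : ℕ) = ζ ^ (i' : ℕ) := mul_left_cancel₀ hzt hii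
        exact Fin.ext (hζ.pow_inj i.2 i'.2 h2)
      · have h2 : (zt * ζ ^ (i : ℕ)) ^ k = t := by
          rw [mul_pow, hzt', ← pow_mul, mul_comm (i : ℕ) k, pow_mul, hζ.pow_eq_one, one_pow,
            mul_one]
        have h3 : zt * ζ ^ (i : ℕ) ≠ 0 := by
          intro h0
          rw [h0, zero_pow hkp.ne'] at h2
          exact ht h2.symm
        have h4 := hR3 _ ((hoff _).2 h3) j l
        rw [h2] at h4
        simp only [Φ, Polynomial.eval_sub, Polynomial.eval_mul, Polynomial.eval_C]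
        linear_combination -h4
    have h5 : (R j).eval zs * (P' l).eval t = (R l).eval zs * (P' j).eval t := by
      have h6 := congrArg (fun p : Polynomial ℂ => p.eval zs) hΦ
      simp only [Φ, Polynomial.eval_sub, Polynomial.eval_mul, Polynomial.eval_C,
        Polynomial.eval_zero] at h6
      exact sub_eq_zero.1 h6
    have h6 : ∀ m m', (P' m).eval s * (R m').eval zs = (P' m').eval s * (R m).eval zs := by
      intro m m'
      have h7 := hR3 zs ((hoff _).2 hzs) m m'
      rw [hzs'] at h7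
      exact h7
    obtain ⟨m, hm⟩ := hR2 zs
    apply hst
    apply mul_left_cancel₀ hm
    have h8 := h6 j m
    have h9 := h6 l m
    linear_combination (P' l).eval t * h8 + (P' m).eval s * h5 - (P' j).eval t * h9

/-- **Bounds for the degree and curves of the punctured line.** -/
theorem sparse_tfae {I : Ideal (MvPolynomial (Fin (n + 1)) ℂ)}
    {Q : MvPolynomial (Fin (n + 1)) ℂ} {q0 : ℕ} (hI : I.IsPrime) (hQ : Q.IsHomogeneous q0) :
    List.TFAE [¬ GmRuled I Q, ∀ s r e d, LineBound I Q s r e d, ∀ r e d, SparseBound I Q r e d,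
      ∀ r, SparseBound I Q r 0 1] := by
  tfae_have 1 → 2 := fun h s r e d => line_deg hI hQ (thin_of_not_ruled hI hQ h) s r e d
  tfae_have 2 → 3 := fun h r e d => sparse_of_line hQ (h _ _ _ _)
  tfae_have 3 → 4 := fun h r => h r 0 1
  tfae_have 4 → 1 := fun h => ruled_sparse hI hQ h
  tfae_finish

end Pool.Agent.V1153.LV
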